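import Pool.Agent.PolD.Out
import Pool.Agent.Lsp.Main

/-!
# MP_c6d19f_nt: a third of the pairs `x < y` in every large set have `x² + x + A`, `y² + y + A` consecutive primes

Q1 asks for an `A` such that `f_A(x) = x² + x + A` is prime for all `x = 1, …, B`.

`result`: let `S` be ANY finite set of natural numbers with at least `N(ε)` elements.  For at least `(1/3 - ε) |S|² / 2` of
the pairs `x < y` in `S` (a third of all pairs, up to `ε`) there are infinitely many `A` such that `f_A(x)` and `f_A(y)` are
CONSECUTIVE primes, that is, `f_A(x) = p_n` and `f_A(y) = p_(n+1)`, where `p_0 = 2, p_1 = 3, …` are all primes.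

Proof.  The theorem on four groups of linear forms (`PolD.dhlg4`; Maynard-Tao sieve, dispersion method, upper bound sieve for
pairs) gives `k` such that among any `4 k` of the numbers `x² + x`, divided into four groups of `k`, two of different groups
can be chosen such that their translates by `A` are consecutive primes for infinitely many `A` (`PolD.cons_cluster`; the
numbers `x² + x` leave out a class modulo every prime, because `0² + 0 = (-1)² + (-1)`).  So the graph of the bad pairs in `S`
contains no complete 4-partite graph with parts of size `k`; by the minimum degree form of the Erdős-Stone theorem (Mathlib)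
some `x` in every large set has at least `(1/3 - ε)` times as many good partners as the set has elements.  This is applied
again after `x` is removed.
-/

set_option autoImplicit false

namespace Pool.Agent.Results.MP_c6d19f_nt.ThirdOfPairs

theorem result : ∀ ε : ℝ, 0 < ε → ∃ N : ℕ, ∀ S : Finset ℕ, N ≤ S.card →
    (1 / 3 - ε) * (S.card : ℝ) ^ 2 / 2 ≤
      ({z : ℕ × ℕ | z.1 ∈ S ∧ z.2 ∈ S ∧ z.1 < z.2 ∧
        {A : ℕ | ∃ n : ℕ, z.1 ^ 2 + z.1 + A = Nat.nth Nat.Prime n ∧
          z.2 ^ 2 + z.2 + A = Nat.nth Nat.Prime (n + 1)}.Infinite}.ncard : ℝ) := by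
  intro ε hε
  obtain ⟨k, hk, hD⟩ := Pool.Agent.PolD.dhlg4
  obtain ⟨N, hN⟩ := Pool.Agent.Lsp.main k hk hD ε hε
  refine ⟨N, fun S hS => (hN S hS).trans (le_of_eq ?_)⟩
  rw [← Set.ncard_coe_finset]
  congr 2
  ext z
  rw [Finset.mem_coe]
  exact Pool.Agent.Lsp.mem_gp S z

end Pool.Agent.Results.MP_c6d19f_nt.ThirdOfPairs
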